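import Pool.Agent.Q5.SG.Stm

/-!
Project SG (helper5), job HB (helper222).
-/

set_option autoImplicit false

namespace Pool.Agent.Q222.SG

open Finset NumberField IsDedekindDomain Module Pool.Agent.Y18.LC Pool.Agent.Q5.SG

theorem hb : Pool.Agent.Q5.SG.S_HB := by
  intro p hp hp2 K H _ _ _ _ _ _ hun n u hinv
  choose y hy hyu using hinv
  have hcoc : groupCohomology.IsMulCocycle₁ y := by
    intro g h
    apply root_unique hp.out hp2 hun n (hy (g * h))
      (mul_mem (smul_EU g (hy h)) (hy g))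
    rw [mul_pow, ← smul_pow', hyu, hyu, hyu, smul_div', mul_smul, div_mul_div_cancel]
  obtain ⟨c, hc⟩ := groupCohomology.isMulCoboundary₁_of_isMulCocycle₁_of_aut_to_units y hcoc
  have hfix : ∀ g : H ≃ₐ[K] H, g • (u / c ^ p ^ n) = u / c ^ p ^ n := by
    intro g
    have h1 : g • u = y g ^ p ^ n * u := by rw [hyu, div_mul_cancel]
    have h2 : g • c = y g * c := by rw [← hc g, div_mul_cancel]
    rw [smul_div', smul_pow', h1, h2, mul_pow, mul_div_mul_left_eq_div]
  have hmem : ((u / c ^ p ^ n : Hˣ) : H) ∈ Set.range (algebraMap K H) := by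
    rw [IsGalois.mem_range_algebraMap_iff_fixed]
    intro g
    have := congrArg (fun t : Hˣ => (t : H)) (hfix g)
    exact this
  obtain ⟨a, ha⟩ := hmem
  have ha0 : a ≠ 0 := by
    rintro rfl
    rw [map_zero] at ha
    exact (u / c ^ p ^ n : Hˣ).ne_zero ha.symm
  refine ⟨Units.mk0 a ha0, c, ?_⟩
  have h2 : Units.map (algebraMap K H).toMonoidHom (Units.mk0 a ha0) = u / c ^ p ^ n := by
    ext
    exact ha
  rw [h2, div_mul_cancel]

end Pool.Agent.Q222.SG
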