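import Pool.Agent.Q5.SG.Stm2

/-!
Project SG (helper5), job KP (helper222).
-/

set_option autoImplicit false

namespace Pool.Agent.Q222.SG

open Polynomial NumberField

theorem kp : Pool.Agent.Q5.SG.S_KP := by
  intro K _ _ n hn
  classical
  have hfg : Group.FG (𝓞 K)ˣ := Group.fg_iff_monoid_fg.2 inferInstance
  obtain ⟨G, hG⟩ := hfg.out
  obtain ⟨f, hf⟩ : ∃ f : K[X], f = (X ^ n - C 1) * ∏ g ∈ G, (X ^ n - C ((g : 𝓞 K) : K)) := ⟨_, rfl⟩
  have hne : ∀ a : K, (X ^ n - C a : K[X]) ≠ 0 := fun a => X_pow_sub_C_ne_zero hn a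
  have hf0 : f ≠ 0 := by
    rw [hf]
    exact mul_ne_zero (hne 1) (Finset.prod_ne_zero_iff.2 (fun g _ => hne _))
  have hnf : NumberField f.SplittingField := NumberField.of_module_finite K f.SplittingField
  have hs : Splits (f.map (algebraMap K f.SplittingField)) := SplittingField.splits f
  have hfm : f.map (algebraMap K f.SplittingField) ≠ 0 := (Polynomial.map_ne_zero_iff (algebraMap K f.SplittingField).injective).2 hf0
  -- roots of the factors
  have hroot : ∀ a : K, (X ^ n - C a : K[X]) ∣ f → ∃ y : f.SplittingField, y ^ n = algebraMap K f.SplittingField a := by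
    intro a ha
    have h1 : Splits ((X ^ n - C a : K[X]).map (algebraMap K f.SplittingField)) := hs.of_dvd hfm (Polynomial.map_dvd _ ha)
    obtain ⟨y, hy⟩ := h1.exists_eval_eq_zero (by
      rw [degree_map, degree_X_pow_sub_C hn]
      exact_mod_cast hn.ne')
    refine ⟨y, ?_⟩
    rw [Polynomial.map_sub, Polynomial.map_pow, map_X, map_C, eval_sub, eval_pow, eval_X, eval_C] at hy
    exact sub_eq_zero.1 hy
  -- primitive root
  have hprim : ∃ ζ : f.SplittingField, IsPrimitiveRoot ζ n := by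
    have hnz : NeZero (n : f.SplittingField) := ⟨by exact_mod_cast hn.ne'⟩
    have h1 : cyclotomic n f.SplittingField ∣ f.map (algebraMap K f.SplittingField) := by
      have h2 : cyclotomic n f.SplittingField ∣ X ^ n - 1 := cyclotomic.dvd_X_pow_sub_one n _
      have h3 : (X ^ n - 1 : (f.SplittingField)[X]) = (X ^ n - C 1 : K[X]).map (algebraMap K f.SplittingField) := by
        simp
      rw [h3] at h2
      refine h2.trans (Polynomial.map_dvd _ ?_)
      conv_rhs => rw [hf]
      exact dvd_mul_right _ _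
    obtain ⟨ζ, hζ⟩ := (hs.of_dvd hfm h1).exists_eval_eq_zero (by
      rw [degree_cyclotomic]
      exact_mod_cast (Nat.totient_pos.2 hn).ne')
    exact ⟨ζ, isRoot_cyclotomic_iff.1 hζ⟩
  obtain ⟨ζ, hζ⟩ := hprim
  -- the roots of the units
  have hunit : ∀ u : (𝓞 K)ˣ, ∃ y : f.SplittingField, y ^ n = algebraMap K f.SplittingField ((u : 𝓞 K) : K) := by
    intro u
    have hu : u ∈ Subgroup.closure (G : Set (𝓞 K)ˣ) := by rw [hG]; trivial
    induction hu using Subgroup.closure_induction with
    | mem x hx =>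
      apply hroot
      conv_rhs => rw [hf]
      exact dvd_mul_of_dvd_right (Finset.dvd_prod_of_mem (fun g : (𝓞 K)ˣ => (X ^ n - C ((g : 𝓞 K) : K))) hx) _
    | one => exact ⟨1, by simp⟩
    | mul x y _ _ hx hy =>
      obtain ⟨a, ha⟩ := hx
      obtain ⟨b, hb⟩ := hy
      refine ⟨a * b, ?_⟩
      rw [mul_pow, ha, hb, ← map_mul, Units.val_mul, RingOfIntegers.coe_eq_algebraMap, RingOfIntegers.coe_eq_algebraMap, RingOfIntegers.coe_eq_algebraMap, map_mul (algebraMap (𝓞 K) K)]
    | inv x _ hx =>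
      obtain ⟨a, ha⟩ := hx
      refine ⟨a⁻¹, ?_⟩
      rw [inv_pow, ha, ← map_inv₀]
      congr 1
      refine (eq_inv_of_mul_eq_one_left ?_).symm
      rw [RingOfIntegers.coe_eq_algebraMap, RingOfIntegers.coe_eq_algebraMap, ← map_mul (algebraMap (𝓞 K) K), Units.inv_mul, map_one]
  choose r hr using hunit
  exact ⟨f.SplittingField, inferInstance, hnf, inferInstance, ζ, r, hζ, hr⟩

end Pool.Agent.Q222.SG
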