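import Pool.Agent.Q5.SG.Stm2

/-!
Project SG (helper5), job NP (helper222).
-/

set_option autoImplicit false

namespace Pool.Agent.Q222.SG

open NumberField IsDedekindDomain Module
open Pool.Agent.Q92.AR (nu)
open Pool.Agent.Q5.SG (TotRam)

section

variable {K L : Type} [Field K] [NumberField K] [Field L] [NumberField L] [Algebra K L]

/-- an embedding on the integers -/
noncomputable def sg (σ : L →ₐ[K] AlgebraicClosure K) : 𝓞 L →+* integralClosure (𝓞 K) (AlgebraicClosure K) :=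
  ((σ : L →+* AlgebraicClosure K).comp (algebraMap (𝓞 L) L)).codRestrict (integralClosure (𝓞 K) (AlgebraicClosure K)) (fun a => by
    have h1 : IsIntegral ℤ ((σ : L →+* AlgebraicClosure K) (algebraMap (𝓞 L) L a)) := map_isIntegral_int _ a.2
    exact h1.tower_top)

theorem coe_sg (σ : L →ₐ[K] AlgebraicClosure K) (a : 𝓞 L) : ((sg σ a : integralClosure (𝓞 K) (AlgebraicClosure K)) : AlgebraicClosure K) = σ (a : L) := rfl

theorem sg_alg (σ : L →ₐ[K] AlgebraicClosure K) (a : 𝓞 K) :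
    sg σ (algebraMap (𝓞 K) (𝓞 L) a) = algebraMap (𝓞 K) (integralClosure (𝓞 K) (AlgebraicClosure K)) a := by
  apply Subtype.ext
  rw [coe_sg]
  show σ (algebraMap K L (algebraMap (𝓞 K) K a)) = algebraMap K (AlgebraicClosure K) (algebraMap (𝓞 K) K a)
  exact σ.commutes _

/-- norms of integers -/
theorem norm_cong {𝔮 : HeightOneSpectrum (𝓞 K)} {𝔓 : HeightOneSpectrum (𝓞 L)}
    (huniq : ∀ 𝔓' : HeightOneSpectrum (𝓞 L), 𝔓'.under (𝓞 K) = 𝔮 → 𝔓' = 𝔓) {b : 𝓞 L} {b₀ : 𝓞 K}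
    (h : b - algebraMap (𝓞 K) (𝓞 L) b₀ ∈ 𝔓.asIdeal) :
    RingOfIntegers.norm K b - b₀ ^ finrank K L ∈ 𝔮.asIdeal := by
  have : 𝔮.asIdeal.IsMaximal := 𝔮.isMaximal
  obtain ⟨Q, hQm, hQ⟩ := Ideal.exists_maximal_ideal_liesOver_of_isIntegral (S := integralClosure (𝓞 K) (AlgebraicClosure K)) 𝔮.asIdeal
  have hQp : Q.IsPrime := hQm.isPrime
  have hQc : Q.comap (algebraMap (𝓞 K) (integralClosure (𝓞 K) (AlgebraicClosure K))) = 𝔮.asIdeal := hQ.over.symm
  have key : ∀ σ : L →ₐ[K] AlgebraicClosure K, sg σ (b - algebraMap (𝓞 K) (𝓞 L) b₀) ∈ Q := by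
    intro σ
    have hc : (Q.comap (sg σ)).comap (algebraMap (𝓞 K) (𝓞 L)) = 𝔮.asIdeal := by
      rw [← hQc]
      ext a
      rw [Ideal.mem_comap, Ideal.mem_comap, Ideal.mem_comap, sg_alg]
    have hb : Q.comap (sg σ) ≠ ⊥ := by
      intro h0
      rw [h0] at hc
      apply 𝔮.ne_bot
      rw [← hc]
      exact Ideal.comap_bot_of_injective _ (FaithfulSMul.algebraMap_injective (𝓞 K) (𝓞 L))
    have hu := huniq ⟨Q.comap (sg σ), Ideal.comap_isPrime _ _, hb⟩ (HeightOneSpectrum.ext hc)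
    have h1 : b - algebraMap (𝓞 K) (𝓞 L) b₀ ∈ Q.comap (sg σ) := by
      have h2 := congrArg HeightOneSpectrum.asIdeal hu
      simp only at h2
      rw [h2]
      exact h
    exact h1
  rw [← hQc, Ideal.mem_comap, ← Ideal.Quotient.eq_zero_iff_mem, map_sub, map_sub, sub_eq_zero, map_pow, map_pow]
  have hprod : algebraMap (𝓞 K) (integralClosure (𝓞 K) (AlgebraicClosure K)) (RingOfIntegers.norm K b) = ∏ σ : L →ₐ[K] AlgebraicClosure K, sg σ b := by
    apply Subtype.ext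
    have h1 : ((∏ σ : L →ₐ[K] AlgebraicClosure K, sg σ b : integralClosure (𝓞 K) (AlgebraicClosure K)) : AlgebraicClosure K) =
        ∏ σ : L →ₐ[K] AlgebraicClosure K, σ (b : L) :=
      map_prod (integralClosure (𝓞 K) (AlgebraicClosure K)).val _ _
    rw [h1, ← Algebra.norm_eq_prod_embeddings K (AlgebraicClosure K)]
    show algebraMap K (AlgebraicClosure K) (algebraMap (𝓞 K) K (RingOfIntegers.norm K b)) = _
    congr 1
  rw [hprod, map_prod]
  have h2 : ∀ σ : L →ₐ[K] AlgebraicClosure K, Ideal.Quotient.mk Q (sg σ b) = Ideal.Quotient.mk Q (algebraMap (𝓞 K) (integralClosure (𝓞 K) (AlgebraicClosure K)) b₀) := by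
    intro σ
    rw [← sg_alg σ, ← sub_eq_zero, ← map_sub, ← map_sub, Ideal.Quotient.eq_zero_iff_mem]
    exact key σ
  simp only [h2]
  rw [Finset.prod_const, Finset.card_univ, AlgHom.card]

end

theorem np : Pool.Agent.Q5.SG.S_NP := by
  intro K L _ _ _ _ _ 𝔮 hT x hx
  obtain ⟨𝔓, h𝔓, huniq, hres⟩ := hT
  have hx1 := hx 𝔓 h𝔓
  obtain ⟨b, d, hbd⟩ := HeightOneSpectrum.exists_primeCompl_mul_eq_of_integer 𝔓 (x : L) hx1.le
  obtain ⟨c, hc⟩ := d
  have hc' : c ∉ 𝔓.asIdeal := hc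
  have hb' : b ∉ 𝔓.asIdeal := by
    rw [← HeightOneSpectrum.valuation_eq_one_iff_notMem (K := L), ← hbd, map_mul, hx1, one_mul, HeightOneSpectrum.valuation_eq_one_iff_notMem]
    exact hc'
  obtain ⟨b₀, hb₀⟩ := hres b
  obtain ⟨c₀, hc₀⟩ := hres c
  have hmem : ∀ y : 𝓞 K, algebraMap (𝓞 K) (𝓞 L) y ∈ 𝔓.asIdeal ↔ y ∈ 𝔮.asIdeal := by
    intro y
    rw [← h𝔓]
    rfl
  have hb₀' : b₀ ∉ 𝔮.asIdeal := by
    rw [← hmem]
    intro h
    apply hb'
    have := 𝔓.asIdeal.add_mem hb₀ h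
    rwa [sub_add_cancel] at this
  have hc₀' : c₀ ∉ 𝔮.asIdeal := by
    rw [← hmem]
    intro h
    apply hc'
    have := 𝔓.asIdeal.add_mem hc₀ h
    rwa [sub_add_cancel] at this
  have hb1 : 𝔮.valuation K (algebraMap (𝓞 K) K b₀) = 1 := (HeightOneSpectrum.valuation_eq_one_iff_notMem 𝔮).2 hb₀'
  have hc1 : 𝔮.valuation K (algebraMap (𝓞 K) K c₀) = 1 := (HeightOneSpectrum.valuation_eq_one_iff_notMem 𝔮).2 hc₀'
  have hNb := norm_cong huniq hb₀
  have hNc := norm_cong huniq hc₀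
  set n := finrank K L with hn
  have hbn : b₀ ^ n ∉ 𝔮.asIdeal := fun h => hb₀' (𝔮.isPrime.mem_of_pow_mem _ h)
  have hcn : c₀ ^ n ∉ 𝔮.asIdeal := fun h => hc₀' (𝔮.isPrime.mem_of_pow_mem _ h)
  have hNb' : RingOfIntegers.norm K b ∉ 𝔮.asIdeal := fun h => hbn (by
    have := 𝔮.asIdeal.sub_mem h hNb
    rwa [sub_sub_cancel] at this)
  have hNc' : RingOfIntegers.norm K c ∉ 𝔮.asIdeal := fun h => hcn (by
    have := 𝔮.asIdeal.sub_mem h hNc
    rwa [sub_sub_cancel] at this)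
  have vb : 𝔮.valuation K (algebraMap (𝓞 K) K (RingOfIntegers.norm K b)) = 1 := (HeightOneSpectrum.valuation_eq_one_iff_notMem 𝔮).2 hNb'
  have vc : 𝔮.valuation K (algebraMap (𝓞 K) K (RingOfIntegers.norm K c)) = 1 := (HeightOneSpectrum.valuation_eq_one_iff_notMem 𝔮).2 hNc'
  have hb0 : algebraMap (𝓞 K) K b₀ ≠ 0 := by
    intro h
    rw [h, map_zero] at hb1
    exact zero_ne_one hb1
  have hc0 : algebraMap (𝓞 K) K c₀ ≠ 0 := by
    intro h
    rw [h, map_zero] at hc1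
    exact zero_ne_one hc1
  have hNc0 : algebraMap (𝓞 K) K (RingOfIntegers.norm K c) ≠ 0 := by
    intro h
    rw [h, map_zero] at vc
    exact zero_ne_one vc
  refine ⟨Units.mk0 (algebraMap (𝓞 K) K b₀ / algebraMap (𝓞 K) K c₀) (div_ne_zero hb0 hc0), ?_, ?_⟩
  · rw [Units.val_mk0, map_div₀, hb1, hc1, div_one]
  · rw [Units.val_mk0]
    have hnorm : (nu K L x : K) * algebraMap (𝓞 K) K (RingOfIntegers.norm K c) = algebraMap (𝓞 K) K (RingOfIntegers.norm K b) := by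
      have h1 : Algebra.norm K ((x : L) * algebraMap (𝓞 L) L c) = Algebra.norm K (algebraMap (𝓞 L) L b) := by rw [hbd]
      rw [map_mul] at h1
      exact h1
    have e : (nu K L x : K) / (algebraMap (𝓞 K) K b₀ / algebraMap (𝓞 K) K c₀) ^ n - 1 =
        (algebraMap (𝓞 K) K (RingOfIntegers.norm K b * c₀ ^ n - RingOfIntegers.norm K c * b₀ ^ n)) /
          (algebraMap (𝓞 K) K (RingOfIntegers.norm K c) * algebraMap (𝓞 K) K b₀ ^ n) := by
      have hbn0 := pow_ne_zero n hb0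
      have hcn0 := pow_ne_zero n hc0
      rw [map_sub, map_mul, map_mul, map_pow, map_pow, ← hnorm, div_pow]
      field_simp
    rw [e, map_div₀, map_mul, map_pow, hb1, vc, one_pow, mul_one, div_one, HeightOneSpectrum.valuation_lt_one_iff_mem]
    have e2 : RingOfIntegers.norm K b * c₀ ^ n - RingOfIntegers.norm K c * b₀ ^ n =
        (RingOfIntegers.norm K b - b₀ ^ n) * c₀ ^ n - (RingOfIntegers.norm K c - c₀ ^ n) * b₀ ^ n := by ring
    rw [e2]
    exact 𝔮.asIdeal.sub_mem (𝔮.asIdeal.mul_mem_right _ hNb) (𝔮.asIdeal.mul_mem_right _ hNc)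

end Pool.Agent.Q222.SG
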