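import Pool.Agent.Q5.SG.Stm

/-!
Project SG (helper5), job BD (helper222).
-/

set_option autoImplicit false

namespace Pool.Agent.Q222.SG

open Polynomial

theorem tors_pow {p : ℕ} {A : Type} [AddCommGroup A] (h : ∀ a : A, (p : ℤ) • a = 0 → a = 0) :
    ∀ (v : ℕ) (a : A), ((p : ℤ) ^ v) • a = 0 → a = 0 := by
  intro v
  induction v with
  | zero =>
    intro a ha
    rwa [pow_zero, one_smul] at ha
  | succ v ih =>
    intro a ha
    rw [pow_succ, mul_smul] at ha
    exact h a (ih _ ha)

theorem bd : Pool.Agent.Q5.SG.J_BD := by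
  intro hCY p hp j n hj A _ T htors z w f h1 h2 h3
  rcases hCY p j (n / Nat.totient (p ^ j)) hj f with h | ⟨g, k, v, c, hv, hc, he⟩
  · exact h
  · exfalso
    have hvn : v < n := lt_of_lt_of_le hv (Nat.div_mul_le_self _ _)
    have e1 : aeval T (g * f) z = ((p : ℤ) ^ n) • aeval T g w := by
      rw [map_mul, Module.End.mul_apply, h2, map_smul]
    have e2 : aeval T (C ((p : ℤ) ^ v * c) + cyclotomic (p ^ j) ℤ * k) z = ((p : ℤ) ^ v * c) • z := by
      rw [map_add, LinearMap.add_apply, mul_comm (cyclotomic (p ^ j) ℤ) k, map_mul (aeval T) k, Module.End.mul_apply, h1, map_zero, add_zero, aeval_C]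
      rfl
    rw [he, e2] at e1
    have hcop : IsCoprime c ((p : ℤ) ^ (n - v)) := by
      apply IsCoprime.pow_right
      have hpp : Prime (p : ℤ) := Nat.prime_iff_prime_int.1 hp.out
      exact ((Prime.coprime_iff_not_dvd hpp).2 hc).symm
    obtain ⟨a, b, hab⟩ := hcop
    have e3 : ((p : ℤ) ^ v) • z = ((p : ℤ) ^ n) • (a • aeval T g w + b • z) := by
      have hn : (p : ℤ) ^ n = (p : ℤ) ^ v * (p : ℤ) ^ (n - v) := by
        rw [← pow_add]
        congr 1
        omega
      calc ((p : ℤ) ^ v) • z = ((p : ℤ) ^ v * (a * c + b * (p : ℤ) ^ (n - v))) • z := by rw [hab, mul_one]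
        _ = a • (((p : ℤ) ^ v * c) • z) + b • (((p : ℤ) ^ n) • z) := by
          rw [hn, smul_smul, smul_smul, ← add_smul]
          congr 1
          ring
        _ = a • (((p : ℤ) ^ n) • aeval T g w) + b • (((p : ℤ) ^ n) • z) := by rw [e1]
        _ = ((p : ℤ) ^ n) • (a • aeval T g w + b • z) := by
          rw [smul_add, smul_comm a, smul_comm b]
    have e4 : z = ((p : ℤ) ^ (n - v)) • (a • aeval T g w + b • z) := by
      have h4 : ((p : ℤ) ^ v) • (z - ((p : ℤ) ^ (n - v)) • (a • aeval T g w + b • z)) = 0 := by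
        rw [smul_sub, smul_smul, ← pow_add, e3]
        have : v + (n - v) = n := by omega
        rw [this, sub_self]
      exact sub_eq_zero.1 (tors_pow htors v _ h4)
    apply h3 (((p : ℤ) ^ (n - v - 1)) • (a • aeval T g w + b • z))
    rw [smul_smul, ← pow_succ']
    have : n - v - 1 + 1 = n - v := by omega
    rw [this]
    exact e4

end Pool.Agent.Q222.SG
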