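import Pool.Agent.Q5.SG.Stm

/-!
Project SG (helper5), job FN (helper222).
-/

set_option autoImplicit false

namespace Pool.Agent.Q222.SG

open Finset NumberField IsDedekindDomain Module Pool.Agent.Y18.LC Pool.Agent.Q5.SG

theorem fn : Pool.Agent.Q5.SG.J_FN := by
  intro _ _ hRC p hp K H _ _ _ _ _ hun S n
  classical
  let U : Subgroup (𝓞 H)ˣ := (powMonoidHom (p ^ n)).range
  have : Group.FG (𝓞 H)ˣ := Group.fg_iff_monoid_fg.2 inferInstance
  have hQ : Finite ((𝓞 H)ˣ ⧸ U) := by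
    apply CommGroup.finite_of_fg_isMulTorsion
    intro q
    obtain ⟨e, rfl⟩ := QuotientGroup.mk_surjective q
    rw [isOfFinOrder_iff_pow_eq_one]
    refine ⟨p ^ n, pow_pos hp.out.pos _, ?_⟩
    rw [← QuotientGroup.mk_pow, QuotientGroup.eq_one_iff]
    exact ⟨e, rfl⟩
  have := Fintype.ofFinite ((𝓞 H)ˣ ⧸ U)
  obtain ⟨R, -, -, hR⟩ := rep_lemma (CU S H 1) (Finset.univ : Finset ((𝓞 H)ˣ ⧸ U))
    (fun u q => ∃ e : (𝓞 H)ˣ, ((e : 𝓞 H) : H) = u ∧ (e : (𝓞 H)ˣ ⧸ U) = q)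
    (fun u hu => by
      obtain ⟨e, he⟩ := mem_EU.1 hu.1
      exact ⟨_, mem_univ _, e, he, rfl⟩)
    (fun u => u ∈ CV S H n)
    (fun u hu u' hu' t => by
      rintro ⟨e, he, rfl⟩ ⟨e', he', h⟩
      rw [QuotientGroup.eq] at h
      obtain ⟨w, hw⟩ := h
      have hw' : w ^ p ^ n = e'⁻¹ * e := hw
      let w' : Hˣ := Units.map (algebraMap (𝓞 H) H).toMonoidHom w
      have h1 : w' ^ p ^ n = u / u' := by
        ext
        rw [div_eq_mul_inv, mul_comm, Units.val_mul, Units.val_inv_eq_inv_val, ← he, ← he',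
          Units.val_pow_eq_pow_val]
        show (algebraMap (𝓞 H) H (w : 𝓞 H)) ^ p ^ n = _
        rw [← map_pow, ← Units.val_pow_eq_pow_val, hw', Units.val_mul, map_mul]
        congr 1
        refine (inv_eq_of_mul_eq_one_right ?_).symm
        show algebraMap (𝓞 H) H (e' : 𝓞 H) * _ = 1
        rw [← map_mul, Units.mul_inv, map_one]
      refine ⟨w', ?_, h1⟩
      apply hRC p K H hun S n w'
      rw [h1]
      exact div_mem hu hu')
  exact ⟨R, hR⟩

end Pool.Agent.Q222.SG
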